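import Mathlib

/-!
# The height on the projective line over `k(t)`
-/

set_option autoImplicit false

namespace Pool.Agent.R415.CHt

open Polynomial IsDedekindDomain

open scoped Classical in
/-- The height `h([x : y]) = ∑_v deg(v) log max(|x|_v, |y|_v)` over `K = k(t)`: the sum runs over
the closed points of the projective line over `k`, that is over the nonzero prime ideals `v` of
`k[t]`, with `|x|_v = exp(-v(x))` and `deg(v) = [k[t]/v : k]`, and over the place at infinity, of
degree one, with `log |x| = deg(numerator) - deg(denominator)`. -/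
noncomputable def height (k : Type) [Field k] (P : RatFunc k × RatFunc k) : ℤ :=
  (∑ᶠ v : HeightOneSpectrum k[X], (Module.finrank k (k[X] ⧸ v.asIdeal) : ℤ) *
      WithZero.log (max (v.valuation (RatFunc k) P.1) (v.valuation (RatFunc k) P.2))) +
    WithZero.log (max (RatFunc.inftyValuation k P.1) (RatFunc.inftyValuation k P.2))

variable {k : Type} [Field k]

theorem max_val_coprime (v : HeightOneSpectrum k[X]) {U V : k[X]} (h : IsCoprime U V) :
    max (v.intValuation U) (v.intValuation V) = 1 := by
  apply le_antisymm (max_le (v.intValuation_le_one U) (v.intValuation_le_one V))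
  by_contra hlt
  push Not at hlt
  rw [max_lt_iff, v.intValuation_lt_one_iff_mem, v.intValuation_lt_one_iff_mem] at hlt
  obtain ⟨a, b, hab⟩ := h
  apply v.isPrime.ne_top
  rw [Ideal.eq_top_iff_one, ← hab]
  exact Ideal.add_mem _ (Ideal.mul_mem_left _ _ hlt.1) (Ideal.mul_mem_left _ _ hlt.2)

theorem max_val_scaled (v : HeightOneSpectrum k[X]) {U V : k[X]} (h : IsCoprime U V) (m : ℕ) :
    max (v.valuation (RatFunc k) (algebraMap k[X] (RatFunc k) (X ^ m * U)))
      (v.valuation (RatFunc k) (algebraMap k[X] (RatFunc k) (X ^ m * V))) =
      v.intValuation X ^ m := by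
  rw [v.valuation_of_algebraMap, v.valuation_of_algebraMap, map_mul, map_mul, map_pow]
  have h1 := max_val_coprime v h
  rcases le_total (v.intValuation U) (v.intValuation V) with h2 | h2
  · rw [max_eq_right h2] at h1
    rw [max_eq_right (mul_le_mul_right h2 _), h1, mul_one]
  · rw [max_eq_left h2] at h1
    rw [max_eq_left (mul_le_mul_right h2 _), h1, mul_one]

theorem finrank_quot_X : Module.finrank k (k[X] ⧸ (Polynomial.idealX k).asIdeal) = 1 := by
  rw [Polynomial.idealX_span]
  have := finrank_quotient_span_eq_natDegree (K := k) (f := (X : k[X])) 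
  rw [this, natDegree_X]

open scoped Classical in
theorem height_scaled {U V : k[X]} (h : IsCoprime U V) (hU : U ≠ 0) (hV : V ≠ 0)
    (hd : V.natDegree < U.natDegree) (m : ℕ) :
    height k (algebraMap k[X] (RatFunc k) (X ^ m * U), algebraMap k[X] (RatFunc k) (X ^ m * V)) =
      U.natDegree := by
  unfold height
  simp only
  have h1 : ∀ v : HeightOneSpectrum k[X], (Module.finrank k (k[X] ⧸ v.asIdeal) : ℤ) *
      WithZero.log (max (v.valuation (RatFunc k) (algebraMap k[X] (RatFunc k) (X ^ m * U)))
        (v.valuation (RatFunc k) (algebraMap k[X] (RatFunc k) (X ^ m * V)))) =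
      if v = Polynomial.idealX k then -(m : ℤ) else 0 := by
    intro v
    rw [max_val_scaled v h m]
    split_ifs with hv
    · subst hv
      rw [finrank_quot_X]
      have h2 : (Polynomial.idealX k).intValuation X = WithZero.exp (-1 : ℤ) :=
        (Polynomial.idealX k).intValuation_singleton X_ne_zero (Polynomial.idealX_span k)
      rw [h2, WithZero.log_pow, WithZero.log_exp]
      simp
    · have h2 : v.intValuation X = 1 := by
        rw [v.intValuation_eq_one_iff]
        intro hX
        apply hv
        have h3 : (Polynomial.idealX k).asIdeal ≤ v.asIdeal := by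
          rw [Polynomial.idealX_span, Ideal.span_singleton_le_iff_mem]
          exact hX
        have h4 : (Polynomial.idealX k).asIdeal.IsMaximal := (Polynomial.idealX k).isMaximal
        have h5 := h4.eq_of_le v.isPrime.ne_top h3
        exact (HeightOneSpectrum.ext h5).symm
      rw [h2, one_pow, WithZero.log_one, mul_zero]
  rw [finsum_congr h1, finsum_eq_single _ (Polynomial.idealX k) (fun v hv => by rw [if_neg hv]),
    if_pos rfl]
  have hXm : (X : k[X]) ^ m ≠ 0 := pow_ne_zero _ X_ne_zero
  rw [RatFunc.inftyValuation_apply, RatFunc.inftyValuation_apply,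
    RatFunc.inftyValuation.polynomial _ (mul_ne_zero hXm hU),
    RatFunc.inftyValuation.polynomial _ (mul_ne_zero hXm hV), natDegree_mul hXm hU,
    natDegree_mul hXm hV, natDegree_X_pow, max_eq_left, WithZero.log_exp]
  · push_cast
    ring
  · rw [WithZero.exp_le_exp]
    exact_mod_cast by omega

end Pool.Agent.R415.CHt
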