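import Mathlib

/-!
# Irrationality of the limit of `a n / 4 ^ n` when the digits are not eventually periodic
-/

set_option autoImplicit false

namespace Pool.Agent.R415.CHt

open Filter Topology

theorem irrational_limit (a e : ℕ → ℕ) (he : ∀ n, e n = 1 ∨ e n = 2)
    (ha : ∀ n, a (n + 1) + e n = 4 * a n)
    (hper : ∀ N l : ℕ, 0 < l → ∃ n, N ≤ n ∧ e n ≠ e (n + l)) :
    ∃ h : ℝ, Irrational h ∧ Tendsto (fun n => (a n : ℝ) / 4 ^ n) atTop (𝓝 h) := by
  set b : ℕ → ℝ := fun n => (a n : ℝ) / 4 ^ n with hb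
  have haR : ∀ n, (a (n + 1) : ℝ) = 4 * a n - e n := by
    intro n
    have : ((a (n + 1) + e n : ℕ) : ℝ) = ((4 * a n : ℕ) : ℝ) := by rw [ha n]
    push_cast at this
    linarith
  have hrec : ∀ n, b (n + 1) = b n - (e n : ℝ) / 4 ^ (n + 1) := by
    intro n
    simp only [hb]
    rw [haR n]
    field_simp
    ring
  have he1 : ∀ n, (1 : ℝ) ≤ e n := by
    intro n
    rcases he n with h | h <;> rw [h] <;> norm_num
  have he2 : ∀ n, (e n : ℝ) ≤ 2 := by
    intro n
    rcases he n with h | h <;> rw [h] <;> norm_num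
  have hanti : Antitone b := by
    apply antitone_nat_of_succ_le
    intro n
    rw [hrec n]
    have : (0 : ℝ) ≤ (e n : ℝ) / 4 ^ (n + 1) := by positivity
    linarith
  have hbdd : BddBelow (Set.range b) := ⟨0, by rintro _ ⟨n, rfl⟩; positivity⟩
  have hlim := tendsto_atTop_ciInf hanti hbdd
  set h := ⨅ n, b n with hh
  refine ⟨h, ?_, hlim⟩
  -- bounds
  have hup : ∀ n k, b n - b (n + k) ≤ (2 / 3) * ((1 : ℝ) / 4 ^ n - 1 / 4 ^ (n + k)) := by
    intro n k
    induction k with
    | zero => simp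
    | succ k ih =>
      have h1 := hrec (n + k)
      have h2 := he2 (n + k)
      have h3 : (e (n + k) : ℝ) / 4 ^ (n + k + 1) ≤ 2 / 4 ^ (n + k + 1) := by gcongr
      have h4 : (1 : ℝ) / 4 ^ (n + k) = 4 / 4 ^ (n + k + 1) := by
        field_simp
        ring
      have e1 : n + (k + 1) = n + k + 1 := rfl
      rw [e1, h1]
      rw [h4] at ih
      have h5 : (2 : ℝ) / 4 ^ (n + k + 1) = 2 * (1 / 4 ^ (n + k + 1)) := by ring
      have h6 : (4 : ℝ) / 4 ^ (n + k + 1) = 4 * (1 / 4 ^ (n + k + 1)) := by ring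
      rw [h5] at h3
      rw [h6] at ih
      linarith
  have hlo : ∀ n k, (1 / 3) * ((1 : ℝ) / 4 ^ n - 1 / 4 ^ (n + k)) ≤ b n - b (n + k) := by
    intro n k
    induction k with
    | zero => simp
    | succ k ih =>
      have h1 := hrec (n + k)
      have h2 := he1 (n + k)
      have h3 : (1 : ℝ) / 4 ^ (n + k + 1) ≤ (e (n + k) : ℝ) / 4 ^ (n + k + 1) := by gcongr
      have h4 : (1 : ℝ) / 4 ^ (n + k) = 4 * (1 / 4 ^ (n + k + 1)) := by
        field_simp
        ring
      have e1 : n + (k + 1) = n + k + 1 := rfl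
      rw [e1, h1]
      rw [h4] at ih
      linarith
  have h4z : ∀ n : ℕ, Tendsto (fun k : ℕ => (1 : ℝ) / 4 ^ (n + k)) atTop (𝓝 0) := by
    intro n
    have h1 : Tendsto (fun k : ℕ => ((1 : ℝ) / 4) ^ k) atTop (𝓝 0) :=
      tendsto_pow_atTop_nhds_zero_of_lt_one (by norm_num) (by norm_num)
    have h2 := h1.comp (tendsto_add_atTop_nat n)
    refine h2.congr fun k => ?_
    simp only [Function.comp_apply, one_div, inv_pow, add_comm]
  have hsh : ∀ n, Tendsto (fun k => b (n + k)) atTop (𝓝 h) := by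
    intro n
    have := hlim.comp (tendsto_add_atTop_nat n)
    refine this.congr fun k => ?_
    simp only [Function.comp_apply, add_comm]
  set y : ℕ → ℝ := fun n => a n - 4 ^ n * h with hy
  have hyb : ∀ n, y n = 4 ^ n * (b n - h) := by
    intro n
    simp only [hy, hb]
    field_simp
  have hy2 : ∀ n, y n ≤ 2 / 3 := by
    intro n
    have h1 : b n - h ≤ (2 / 3) * ((1 : ℝ) / 4 ^ n - 0) :=
      le_of_tendsto_of_tendsto' ((tendsto_const_nhds).sub (hsh n))
        (((tendsto_const_nhds).sub (h4z n)).const_mul _) (hup n)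
    rw [hyb n]
    have h2 : (0 : ℝ) < 4 ^ n := by positivity
    calc (4 : ℝ) ^ n * (b n - h) ≤ 4 ^ n * ((2 / 3) * ((1 : ℝ) / 4 ^ n - 0)) := by gcongr
      _ = 2 / 3 := by field_simp; ring
  have hy1 : ∀ n, 1 / 3 ≤ y n := by
    intro n
    have h1 : (1 / 3) * ((1 : ℝ) / 4 ^ n - 0) ≤ b n - h :=
      le_of_tendsto_of_tendsto' (((tendsto_const_nhds).sub (h4z n)).const_mul _)
        ((tendsto_const_nhds).sub (hsh n)) (hlo n)
    rw [hyb n]
    have h2 : (0 : ℝ) < 4 ^ n := by positivity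
    calc (1 : ℝ) / 3 = 4 ^ n * ((1 / 3) * ((1 : ℝ) / 4 ^ n - 0)) := by field_simp; ring
      _ ≤ 4 ^ n * (b n - h) := by gcongr
  have hyrec : ∀ n, y (n + 1) = 4 * y n - e n := by
    intro n
    simp only [hy]
    rw [haR n]
    ring
  have hedet : ∀ n m, y n = y m → e n = e m := by
    intro n m hnm
    have h1 := hyrec n
    have h2 := hyrec m
    have h3 := hy1 (n + 1)
    have h4 := hy2 (n + 1)
    have h5 := hy1 (m + 1)
    have h6 := hy2 (m + 1)
    rcases he n with h7 | h7 <;> rcases he m with h8 | h8 <;> rw [h7, h8] <;> exfalso <;>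
      rw [h7] at h1 <;> rw [h8] at h2 <;> push_cast at h1 h2 <;> linarith
  rintro ⟨q, hq⟩
  -- pigeonhole
  have hs : (0 : ℝ) < q.den := by exact_mod_cast q.pos
  have hint : ∀ n, ∃ z : ℤ, (z : ℝ) = q.den * y n := by
    intro n
    refine ⟨q.den * a n - 4 ^ n * q.num, ?_⟩
    have h1 : (q : ℝ) * q.den = q.num := by
      exact_mod_cast Rat.mul_den_eq_num q
    simp only [hy, ← hq]
    push_cast
    linear_combination (4 : ℝ) ^ n * h1
  choose z hz using hint
  have hzr : ∀ n, z n ∈ Finset.Icc (0 : ℤ) q.den := by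
    intro n
    rw [Finset.mem_Icc]
    have h1 := hy1 n
    have h2 := hy2 n
    have h3 := hz n
    constructor
    · have : (0 : ℝ) ≤ z n := by rw [h3]; apply mul_nonneg hs.le; linarith
      exact_mod_cast this
    · have : (z n : ℝ) ≤ q.den := by
        rw [h3]
        calc (q.den : ℝ) * y n ≤ q.den * 1 := by
              apply mul_le_mul_of_nonneg_left _ hs.le
              linarith
          _ = q.den := mul_one _
      exact_mod_cast this
  obtain ⟨n, m, hnm, heq⟩ := Finite.exists_ne_map_eq_of_infinite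
    (fun n : ℕ => (⟨z n, hzr n⟩ : Finset.Icc (0 : ℤ) q.den))
  have hzz : z n = z m := by
    have := congrArg Subtype.val heq
    exact this
  have hyy : y n = y m := by
    have h1 := hz n
    have h2 := hz m
    rw [hzz, h2] at h1
    exact (mul_left_cancel₀ hs.ne' h1).symm
  have main : ∀ n l : ℕ, 0 < l → y n = y (n + l) → False := by
    intro n l hl hyl
    have hall : ∀ j, y (n + j) = y (n + j + l) := by
      intro j
      induction j with
      | zero => exact hyl
      | succ j ih =>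
        have e1 : n + (j + 1) = n + j + 1 := rfl
        have e2 : n + (j + 1) + l = n + j + l + 1 := by omega
        rw [e2, e1, hyrec, hyrec, ih, hedet _ _ ih]
    obtain ⟨k, hk, hne⟩ := hper n l hl
    apply hne
    obtain ⟨j, rfl⟩ := Nat.exists_eq_add_of_le hk
    exact hedet _ _ (hall j)
  rcases lt_or_gt_of_ne hnm with hlt | hlt
  · obtain ⟨l, rfl⟩ := Nat.exists_eq_add_of_lt hlt
    exact main n (l + 1) (by omega) hyy
  · obtain ⟨l, rfl⟩ := Nat.exists_eq_add_of_lt hlt
    exact main m (l + 1) (by omega) hyy.symm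

end Pool.Agent.R415.CHt
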