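import Mathlib

/-!
# The normalised orbit over the field with two elements

`A = X⁴ + X³Y + tXY³`, `B = tX²Y² + t²Y⁴` over `𝔽₂[t]`. Starting from `(t, 1)` we divide
`(A, B)` by `t²` if `t ∣ X`, and by `t` otherwise.
-/

set_option autoImplicit false

namespace Pool.Agent.R415.CHt

open Polynomial

abbrev R := (ZMod 2)[X]

/-- first coordinate -/
noncomputable def fA (x y : R) : R := x ^ 4 + x ^ 3 * y + X * x * y ^ 3

/-- second coordinate -/
noncomputable def fB (x y : R) : R := X * x ^ 2 * y ^ 2 + X ^ 2 * y ^ 4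

structure Good (P : R × R) : Prop where
  cop : IsCoprime P.1 P.2
  y0 : P.2.coeff 0 = 1
  deg : P.2.natDegree < P.1.natDegree

/-- the digit -/
noncomputable def dig (P : R × R) : ℕ := if P.1.coeff 0 = 0 then 2 else 1

theorem two_zero : (2 : R) = 0 := CharTwo.two_eq_zero

theorem coeff_cases (a : ZMod 2) : a = 0 ∨ a = 1 := by
  revert a; decide

theorem add_self' (a : R) : a + a = 0 := by rw [← two_mul, two_zero, zero_mul]

theorem natDegree_fA {x y : R} (h : y.natDegree < x.natDegree) :
    (fA x y).natDegree = 4 * x.natDegree := by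
  unfold fA
  have hx : x ≠ 0 := by rintro rfl; simp at h
  have h1 : (x ^ 4).natDegree = 4 * x.natDegree := natDegree_pow _ _
  have h2 : (x ^ 3 * y).natDegree < (x ^ 4).natDegree := by
    rw [h1]
    refine lt_of_le_of_lt natDegree_mul_le ?_
    rw [natDegree_pow]
    omega
  have h3 : (X * x * y ^ 3).natDegree < (x ^ 4 + x ^ 3 * y).natDegree := by
    rw [natDegree_add_eq_left_of_natDegree_lt h2, h1]
    refine lt_of_le_of_lt natDegree_mul_le ?_
    have := natDegree_mul_le (p := (X : R)) (q := x)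
    rw [natDegree_X] at this
    rw [natDegree_pow]
    omega
  rw [natDegree_add_eq_left_of_natDegree_lt h3, natDegree_add_eq_left_of_natDegree_lt h2, h1]

theorem natDegree_fB {x y : R} (h : y.natDegree < x.natDegree) :
    (fB x y).natDegree ≤ 1 + 2 * x.natDegree + 2 * y.natDegree := by
  unfold fB
  refine (natDegree_add_le _ _).trans (max_le ?_ ?_)
  · refine natDegree_mul_le.trans ?_
    rw [natDegree_pow]
    have := natDegree_mul_le (p := (X : R)) (q := x ^ 2)
    rw [natDegree_X, natDegree_pow] at this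
    omega
  · refine natDegree_mul_le.trans ?_
    rw [natDegree_pow, natDegree_pow, natDegree_X]
    omega

theorem X_prime : Prime (X : R) := prime_X

theorem cop_of {x y x' y' : R} {e : ℕ} (hc : IsCoprime x y) (hA : fA x y = X ^ e * x')
    (hB : fB x y = X ^ e * y') (hy : y'.coeff 0 = 1) : IsCoprime x' y' := by
  apply isCoprime_of_prime_dvd
  · rintro ⟨-, h⟩
    rw [h] at hy
    simp at hy
  · intro π hπ h1 h2
    have hπX : ¬ π ∣ X := by
      intro h
      have h3 : X ∣ π := (hπ.associated_of_dvd X_prime h).symm.dvd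
      have h4 : X ∣ y' := h3.trans h2
      rw [X_dvd_iff] at h4
      rw [h4] at hy
      exact zero_ne_one hy
    have h3 : π ∣ fA x y := by rw [hA]; exact Dvd.dvd.mul_left h1 _
    have h4 : π ∣ fB x y := by rw [hB]; exact Dvd.dvd.mul_left h2 _
    have hB' : fB x y = X * y ^ 2 * (x ^ 2 + X * y ^ 2) := by unfold fB; ring
    have hA' : fA x y = x ^ 4 + x * y * (x ^ 2 + X * y ^ 2) := by unfold fA; ring
    have hno : ∀ _ : π ∣ x, ∀ _ : π ∣ y, False := by
      intro ha hb
      have := hc.isUnit_of_dvd' ha hb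
      exact hπ.not_isUnit this
    rw [hB'] at h4
    rcases hπ.dvd_or_dvd h4 with h5 | h5
    · rcases hπ.dvd_or_dvd h5 with h6 | h6
      · exact hπX h6
      · have h7 : π ∣ y := hπ.dvd_of_dvd_pow h6
        have h8 : π ∣ x ^ 4 := by
          rw [hA'] at h3
          exact (dvd_add_left ((h7.mul_left x).mul_right _)).1 h3
        exact hno (hπ.dvd_of_dvd_pow h8) h7
    · have h8 : π ∣ x ^ 4 := by
        rw [hA'] at h3
        exact (dvd_add_left (Dvd.dvd.mul_left h5 _)).1 h3
      have h9 : π ∣ x := hπ.dvd_of_dvd_pow h8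
      have h10 : π ∣ X * y ^ 2 := by
        exact (dvd_add_right (dvd_pow h9 two_ne_zero)).1 h5
      rcases hπ.dvd_or_dvd h10 with h6 | h6
      · exact hπX h6
      · exact hno h9 (hπ.dvd_of_dvd_pow h6)

theorem step_exists (P : R × R) (hP : Good P) : ∃ Q : R × R, Good Q ∧
    fA P.1 P.2 = X ^ dig P * Q.1 ∧ fB P.1 P.2 = X ^ dig P * Q.2 ∧
    Q.1.natDegree + dig P = 4 * P.1.natDegree := by
  obtain ⟨x, y⟩ := P
  obtain ⟨hc, hy, hd⟩ := hP
  simp only at hc hy hd ⊢
  have key : ∀ (e : ℕ) (x' y' : R), e ≤ 2 → y'.coeff 0 = 1 → fA x y = X ^ e * x' →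
      fB x y = X ^ e * y' → Good (x', y') ∧ x'.natDegree + e = 4 * x.natDegree := by
    intro e x' y' he hy' hA hB
    have hx'0 : x' ≠ 0 := by
      rintro rfl
      have h1 := natDegree_fA hd
      rw [hA, mul_zero, natDegree_zero] at h1
      omega
    have hy'0 : y' ≠ 0 := by
      rintro rfl
      simp at hy'
    have hX : (X : R) ^ e ≠ 0 := pow_ne_zero _ X_ne_zero
    have h1 := natDegree_fA hd
    rw [hA, natDegree_mul hX hx'0, natDegree_X_pow] at h1
    have h2 := natDegree_fB hd
    rw [hB, natDegree_mul hX hy'0, natDegree_X_pow] at h2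
    refine ⟨⟨cop_of hc hA hB hy', hy', ?_⟩, by omega⟩
    simp only
    omega
  rcases coeff_cases (x.coeff 0) with h0 | h0
  · have hdig : dig (x, y) = 2 := by unfold dig; simp [h0]
    rw [hdig]
    obtain ⟨x1, rfl⟩ := X_dvd_iff.2 h0
    obtain ⟨hg, hdeg⟩ := key 2 (X ^ 2 * x1 ^ 4 + X * x1 ^ 3 * y + x1 * y ^ 3)
      (y ^ 2 * (X * x1 ^ 2 + y ^ 2)) le_rfl
      (by simp [coeff_zero_eq_eval_zero] at hy ⊢; simp [hy])
      (by unfold fA; ring) (by unfold fB; ring)
    exact ⟨_, hg, by unfold fA; ring, by unfold fB; ring, hdeg⟩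
  · have hdig : dig (x, y) = 1 := by unfold dig; simp [h0]
    rw [hdig]
    have hA0 : (fA x y).coeff 0 = 0 := by
      unfold fA
      rw [coeff_zero_eq_eval_zero] at *
      simp [h0, hy]
      decide
    obtain ⟨x', hx'⟩ := X_dvd_iff.2 hA0
    obtain ⟨hg, hdeg⟩ := key 1 x' (y ^ 2 * (x ^ 2 + X * y ^ 2)) one_le_two
      (by simp [coeff_zero_eq_eval_zero] at hy h0 ⊢; simp [hy, h0])
      (by rw [hx', pow_one]) (by unfold fB; ring)
    exact ⟨_, hg, by rw [hx', pow_one], by unfold fB; ring, hdeg⟩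

/-- the next normalised pair -/
noncomputable def nxt (P : {P : R × R // Good P}) : {P : R × R // Good P} :=
  ⟨(step_exists P.1 P.2).choose, (step_exists P.1 P.2).choose_spec.1⟩

theorem good0 : Good ((X : R), (1 : R)) :=
  ⟨isCoprime_one_right, by simp, by simp⟩

/-- the normalised orbit of `(t, 1)` -/
noncomputable def sq (n : ℕ) : {P : R × R // Good P} := nxt^[n] ⟨(X, 1), good0⟩

theorem sq_zero : (sq 0).1 = ((X : R), (1 : R)) := rfl

theorem sq_succ (n : ℕ) : sq (n + 1) = nxt (sq n) := Function.iterate_succ_apply' _ _ _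

noncomputable def xs (n : ℕ) : R := (sq n).1.1
noncomputable def ys (n : ℕ) : R := (sq n).1.2
noncomputable def es (n : ℕ) : ℕ := dig (sq n).1

theorem xs_zero : xs 0 = X := rfl
theorem ys_zero : ys 0 = 1 := rfl

theorem fA_eq (n : ℕ) : fA (xs n) (ys n) = X ^ es n * xs (n + 1) := by
  have := (step_exists (sq n).1 (sq n).2).choose_spec.2.1
  unfold xs ys es
  rw [sq_succ]
  exact this

theorem fB_eq (n : ℕ) : fB (xs n) (ys n) = X ^ es n * ys (n + 1) := by
  have := (step_exists (sq n).1 (sq n).2).choose_spec.2.2.1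
  unfold xs ys es
  rw [sq_succ]
  exact this

theorem deg_eq (n : ℕ) : (xs (n + 1)).natDegree + es n = 4 * (xs n).natDegree := by
  have := (step_exists (sq n).1 (sq n).2).choose_spec.2.2.2
  unfold xs es
  rw [sq_succ]
  exact this

theorem cop_xy (n : ℕ) : IsCoprime (xs n) (ys n) := (sq n).2.cop
theorem ys_coeff (n : ℕ) : (ys n).coeff 0 = 1 := (sq n).2.y0
theorem deg_lt (n : ℕ) : (ys n).natDegree < (xs n).natDegree := (sq n).2.deg
theorem es_eq (n : ℕ) : es n = if (xs n).coeff 0 = 0 then 2 else 1 := rfl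

theorem es_mem (n : ℕ) : es n = 1 ∨ es n = 2 := by
  rw [es_eq]
  split_ifs
  · right; rfl
  · left; rfl

theorem xs_ne (n : ℕ) : xs n ≠ 0 := by
  intro h
  have := deg_lt n
  rw [h] at this
  simp at this

theorem ys_ne (n : ℕ) : ys n ≠ 0 := by
  intro h
  have := ys_coeff n
  rw [h] at this
  simp at this

theorem deg_strict (n : ℕ) : (xs n).natDegree < (xs (n + 1)).natDegree := by
  have h1 := deg_eq n
  have h2 := deg_lt n
  rcases es_mem n with h | h <;> omega

theorem deg_mono {n m : ℕ} (h : n < m) : (xs n).natDegree < (xs m).natDegree :=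
  strictMono_nat_of_lt_succ deg_strict h

/-- the cross difference contracts exactly by `t` when the residues agree -/
theorem contract (n m : ℕ) (h : es n = es m) : ∃ c : R, c.coeff 0 = 1 ∧
    X * (xs (m + 1) * ys (n + 1) + xs (n + 1) * ys (m + 1)) =
      (xs m * ys n + xs n * ys m) * c := by
  have hA := fA_eq n
  have hB := fB_eq n
  have hA' := fA_eq m
  have hB' := fB_eq m
  have hy := ys_coeff n
  have hy' := ys_coeff m
  set x := xs n
  set y := ys n
  set x' := xs m
  set y' := ys m
  have hid : fA x' y' * fB x y + fA x y * fB x' y' = X * (x' * y + x * y') *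
      (x ^ 2 * x' ^ 2 * (x' * y + x * y') + X * (x' * y + x * y') ^ 3 +
        (x ^ 2 + X * y ^ 2) * (x' ^ 2 + X * y' ^ 2) * (y * y')) := by
    unfold fA fB
    have h2 := two_zero
    linear_combination (-(2 * x' * y' ^ 3 * X ^ 2 * x ^ 3 * y + 3 * x' ^ 2 * y' ^ 2 * X ^ 2 * x ^ 2 * y ^ 2
      + x' ^ 3 * y' * X * x ^ 3 * y + 2 * x' ^ 3 * y' * X ^ 2 * x * y ^ 3)) * h2
  rw [hA, hB, hA', hB', ← h] at hid
  rcases coeff_cases (x.coeff 0) with h0 | h0
  · have he : es n = 2 := by rw [es_eq]; simp [x, h0]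
    have h0' : x'.coeff 0 = 0 := by
      rw [he, es_eq] at h
      by_contra hne
      rw [if_neg hne] at h
      omega
    rw [he] at hid
    obtain ⟨u, hu⟩ := X_dvd_iff.2 h0
    obtain ⟨u', hu'⟩ := X_dvd_iff.2 h0'
    rw [hu, hu'] at hid ⊢
    refine ⟨X ^ 3 * u ^ 2 * u' ^ 2 * (u' * y + u * y') + X ^ 2 * (u' * y + u * y') ^ 3 +
      (X * u ^ 2 + y ^ 2) * (X * u' ^ 2 + y' ^ 2) * (y * y'), ?_, ?_⟩
    · simp only [coeff_zero_eq_eval_zero] at hy hy' ⊢
      simp [hy, hy']
    · have hX : (X : R) ^ 3 ≠ 0 := pow_ne_zero _ X_ne_zero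
      apply mul_left_cancel₀ hX
      linear_combination hid
  · have he : es n = 1 := by rw [es_eq]; simp [x, h0]
    have h0' : x'.coeff 0 = 1 := by
      rcases coeff_cases (x'.coeff 0) with h1 | h1
      · rw [he, es_eq, if_pos h1] at h
        omega
      · exact h1
    rw [he] at hid
    refine ⟨x ^ 2 * x' ^ 2 * (x' * y + x * y') + X * (x' * y + x * y') ^ 3 +
        (x ^ 2 + X * y ^ 2) * (x' ^ 2 + X * y' ^ 2) * (y * y'), ?_, ?_⟩
    · simp only [coeff_zero_eq_eval_zero] at hy hy' h0 h0' ⊢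
      simp [hy, hy', h0, h0']
      decide
    · have hX : (X : R) ≠ 0 := X_ne_zero
      apply mul_left_cancel₀ hX
      linear_combination hid

/-- the digit sequence is not eventually periodic -/
theorem not_periodic (N l : ℕ) (hl : 0 < l) : ∃ n, N ≤ n ∧ es n ≠ es (n + l) := by
  by_contra hcon
  push Not at hcon
  set w : ℕ → R := fun n => xs (n + l) * ys n + xs n * ys (n + l) with hw
  have key : ∀ m n : ℕ, N ≤ n → X ^ m ∣ w n := by
    intro m
    induction m with
    | zero => intro n _; simp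
    | succ m ih =>
      intro n hn
      obtain ⟨c, hc, hid⟩ := contract n (n + l) (hcon n hn)
      have h1 := ih (n + 1) (by omega)
      have h2 : X ^ (m + 1) ∣ w n * c := by
        have h3 : X * w (n + 1) = w n * c := by
          have e1 : n + 1 + l = n + l + 1 := by omega
          simp only [hw, e1]
          exact hid
        rw [← h3, pow_succ']
        exact mul_dvd_mul_left _ h1
      have h4 : IsCoprime (X ^ (m + 1)) c := by
        apply IsCoprime.pow_left
        rw [X_prime.irreducible.coprime_iff_not_dvd, X_dvd_iff, hc]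
        exact one_ne_zero
      exact h4.dvd_of_dvd_mul_right h2
  have hw0 : w N = 0 := by
    by_contra hne
    have h1 := key ((w N).natDegree + 1) N le_rfl
    have h2 := natDegree_le_of_dvd h1 hne
    rw [natDegree_X_pow] at h2
    omega
  have h1 : xs (N + l) * ys N = xs N * ys (N + l) := by
    have h2 : xs (N + l) * ys N + xs N * ys (N + l) = 0 := hw0
    have h3 := add_self' (xs N * ys (N + l))
    linear_combination h2 - h3
  have h2 : xs (N + l) ∣ xs N := by
    apply (cop_xy (N + l)).dvd_of_dvd_mul_right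
    exact ⟨ys N, h1.symm⟩
  have h3 := natDegree_le_of_dvd h2 (xs_ne N)
  have h4 := deg_mono (n := N) (m := N + l) (by omega)
  omega

end Pool.Agent.R415.CHt
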